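import Pool.Agent.Helper33_DPS.Pos

/-!
Row GEN of table dps.
-/

set_option autoImplicit false

namespace Pool.Agent.DPS.H33

open Finset Polynomial Pool.Agent.DPS

variable {n k t : ℕ}

theorem ip_add (f g h : KS n k → ℝ) : ip f (g + h) = ip f g + ip f h := by
  unfold ip
  rw [← Finset.sum_add_distrib]
  refine Finset.sum_congr rfl fun F _ => ?_
  rw [Pi.add_apply]
  ring

theorem ip_sub (f g h : KS n k → ℝ) : ip f (g - h) = ip f g - ip f h := by
  unfold ip
  rw [← Finset.sum_sub_distrib]
  refine Finset.sum_congr rfl fun F _ => ?_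
  rw [Pi.sub_apply]
  ring

theorem ip_smul (c : ℝ) (f g : KS n k → ℝ) : ip f (c • g) = c * ip f g := by
  unfold ip
  rw [Finset.mul_sum]
  refine Finset.sum_congr rfl fun F _ => ?_
  rw [Pi.smul_apply, smul_eq_mul]
  ring

theorem ip_zero (f : KS n k → ℝ) : ip f 0 = 0 := by
  unfold ip
  simp

theorem ip_ind (A : Finset (KS n k)) : ip (ind A) (ind A) = (A.card : ℝ) := by
  unfold ip ind
  simp

theorem star_eq_ind (k : ℕ) (T : Finset (Fin n)) :
    star k T = ind (Finset.univ.filter fun F : KS n k => T ⊆ F.1) := by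
  funext F
  unfold star ind
  simp

theorem aeval_kp (hMPO : MPOStmt) (hKNA : KNAStmt) (f : KS n k → ℝ) :
    aeval (Y n k) (kp n k) f = K n k f := by
  rw [← hKNA n k f]
  unfold kp
  rw [map_sum, LinearMap.sum_apply]
  refine Finset.sum_congr rfl fun r hr => ?_
  rw [Finset.mem_range] at hr
  rw [map_mul, hMPO n k r (by omega), aeval_C, Module.End.mul_apply, Module.algebraMap_end_apply]

theorem gen (hSPE : SPEStmt) (hSYM : SYMStmt) (hSTA : STAStmt) (hMPO : MPOStmt)
    (hANN : ANNStmt) (hKNA : KNAStmt) (hKEV : KEVStmt) (hSUI : SUIStmt) (hPOS : POSStmt) :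
    GENStmt := by
  intro n k t ht htk hnn m hm A hA T hT
  have hn := two_k_le ht htk hnn
  obtain ⟨α, Q, hQ, h1, h2⟩ := hPOS n k t ht htk hnn (fun j => m.eval (y n j)) hm
  obtain ⟨N, hN⟩ : ∃ N : ℝ[X], N = C α - m + Q * kp n k := ⟨_, rfl⟩
  have hev : ∀ j, j ≤ k → N.eval (y n j) =
      α - m.eval (y n j) + kap n k j * Q.eval (y n j) := by
    intro j hj
    rw [hN, eval_add, eval_sub, eval_C, eval_mul, hKEV n k j hn hj]
    ring
  have hap : ∀ f : KS n k → ℝ, aeval (Y n k) N f =
      α • f - aeval (Y n k) m f + aeval (Y n k) Q (K n k f) := by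
    intro f
    rw [hN, map_add, map_sub, map_mul, aeval_C, LinearMap.add_apply, LinearMap.sub_apply,
      Module.End.mul_apply, aeval_kp hMPO hKNA, Module.algebraMap_end_apply]
  have hip : ∀ B : Finset (KS n k), (∀ F ∈ B, ∀ G ∈ B, t ≤ (F.1 ∩ G.1).card) →
      ip (ind B) (aeval (Y n k) N (ind B)) =
        α * ip (ind B) (ind B) - ip (ind B) (aeval (Y n k) m (ind B)) := by
    intro B hB
    rw [hap, ip_add, ip_sub, ip_smul, hSUI n k t Q B hQ hB, add_zero]
  have hinj : Set.InjOn (y n) (Finset.range (k + 1) : Finset ℕ) := by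
    intro a ha b hb hab
    rw [Finset.mem_coe, Finset.mem_range] at ha hb
    rcases Nat.lt_trichotomy a b with h | h | h
    · exact absurd hab (y_lt hn h (by omega)).ne
    · exact h
    · exact absurd hab (y_lt hn h (by omega)).ne'
  -- the inequality for `A`
  have hpos : 0 ≤ ip (ind A) (aeval (Y n k) N (ind A)) := by
    refine hSPE (KS n k) (Y n k) (fun f g => hSYM n k f g) (Finset.range (k + 1)) (y n) hinj
      (hANN n k) N (fun l hl => ?_) (ind A)
    rw [Finset.mem_range] at hl
    rw [hev l (by omega)]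
    rcases Nat.lt_or_ge t l with h | h
    · exact h2 l h (by omega)
    · exact (h1 l h).ge
  rw [hip A hA, ip_ind] at hpos
  -- the equality for the star
  have hdvd : (∏ l ∈ Finset.range (t + 1), (C (y n l) - X)) ∣ N := by
    refine Finset.prod_dvd_of_coprime ?_ ?_
    · intro a ha b hb hab
      rw [Finset.mem_coe, Finset.mem_range] at ha hb
      have hne : y n a ≠ y n b := by
        rcases Nat.lt_or_gt_of_ne hab with h | h
        · exact (y_lt hn h (by omega)).ne
        · exact (y_lt hn h (by omega)).ne'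
      have h3 : IsCoprime (X - C (y n a)) (X - C (y n b)) :=
        Polynomial.isCoprime_X_sub_C_of_isUnit_sub (sub_ne_zero.2 hne).isUnit
      have h4 := h3.neg_neg
      rw [neg_sub, neg_sub] at h4
      exact h4
    · intro l hl
      rw [Finset.mem_range] at hl
      have h3 : (X - C (y n l)) ∣ N := by
        rw [Polynomial.dvd_iff_isRoot]
        show N.eval (y n l) = 0
        rw [hev l (by omega)]
        exact h1 l (by omega)
      rw [← neg_sub, neg_dvd]
      exact h3
  have hstar0 : aeval (Y n k) N (star k T) = 0 := by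
    obtain ⟨R, hR⟩ := hdvd
    rw [hR, mul_comm, map_mul, Module.End.mul_apply, hSTA n k t T hT, map_zero]
  have hBint : ∀ F ∈ (Finset.univ.filter fun F : KS n k => T ⊆ F.1),
      ∀ G ∈ (Finset.univ.filter fun F : KS n k => T ⊆ F.1), t ≤ (F.1 ∩ G.1).card := by
    intro F hF G hG
    rw [← hT]
    exact Finset.card_le_card (Finset.subset_inter (Finset.mem_filter.1 hF).2
      (Finset.mem_filter.1 hG).2)
  have hst := hip _ hBint
  rw [← star_eq_ind, hstar0, ip_zero] at hst
  have hnn0 : 0 ≤ ip (star k T) (star k T) := by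
    unfold ip
    exact Finset.sum_nonneg fun F _ => mul_self_nonneg _
  have h5 : ip (ind A) (aeval (Y n k) m (ind A)) ≤ α * (A.card : ℝ) := by linarith
  calc ip (star k T) (star k T) * ip (ind A) (aeval (Y n k) m (ind A))
      ≤ ip (star k T) (star k T) * (α * (A.card : ℝ)) := mul_le_mul_of_nonneg_left h5 hnn0
    _ = (A.card : ℝ) * (α * ip (star k T) (star k T)) := by ring
    _ = _ := by
        congr 1
        linarith

end Pool.Agent.DPS.H33
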