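import Pool.Agent.DPS.Stmts

/-!
Rows THE and POS of table dps.
-/

set_option autoImplicit false

namespace Pool.Agent.DPS.H33

open Finset Polynomial Pool.Agent.DPS

theorem the (hWIT : WITStmt) (hWIM : WIMStmt) : THEStmt := by
  intro n k t j ht hj
  induction j, hj using Nat.le_induction with
  | base =>
    intro hk hn
    exact hWIT n k t ht hk hn
  | succ j hj ih =>
    intro hk hn
    refine le_trans (Finset.sum_le_sum fun l hl => ?_) (ih (by omega) hn)
    exact hWIM n k t j l ht (by omega) hk hn hl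

theorem two_k_le {n k t : ℕ} (ht : 1 ≤ t) (htk : t < k) (hn : (t + 1) * (k - t + 1) ≤ n) :
    2 * k ≤ n := by
  obtain ⟨a, rfl⟩ : ∃ a, t = a + 1 := ⟨t - 1, by omega⟩
  obtain ⟨b, rfl⟩ : ∃ b, k = a + 1 + (b + 1) := ⟨k - (a + 1) - 1, by omega⟩
  have h : a + 1 + (b + 1) - (a + 1) = b + 1 := by omega
  rw [h] at hn
  nlinarith

theorem y_lt {n k i j : ℕ} (hn : 2 * k ≤ n) (hij : i < j) (hj : j ≤ k) : y n i < y n j := by
  unfold y
  have h1 : (i : ℝ) + 1 ≤ j := by exact_mod_cast hij
  have h2 : (j : ℝ) ≤ k := by exact_mod_cast hj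
  have h3 : 2 * (k : ℝ) ≤ n := by exact_mod_cast hn
  nlinarith

theorem y_zero (n : ℕ) : y n 0 = 0 := by
  unfold y
  simp

/-- the absolute value of `kap` -/
noncomputable def kc (n k j : ℕ) : ℝ := ((n - k - j).choose (k - j) : ℝ)

theorem kap_eq (n k j : ℕ) : kap n k j = (-1 : ℝ) ^ j * kc n k j := rfl

theorem kc_pos {n k j : ℕ} (hn : 2 * k ≤ n) (hj : j ≤ k) : 0 < kc n k j := by
  unfold kc
  exact_mod_cast Nat.choose_pos (by omega)

theorem kap_ne {n k j : ℕ} (hn : 2 * k ≤ n) (hj : j ≤ k) : kap n k j ≠ 0 := by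
  rw [kap_eq]
  exact mul_ne_zero (pow_ne_zero _ (by norm_num)) (kc_pos hn hj).ne'

/-- the signed coefficients -/
noncomputable def EE (n k t j l : ℕ) : ℝ :=
  (kap n k j / kap n k l) * ∏ m ∈ (Finset.Icc 1 t).erase l, ((y n j - y n m) / (y n l - y n m))

theorem abs_EE (n k t j l : ℕ) : |EE n k t j l| = cc n k t j l := by
  unfold EE cc
  rw [abs_mul, Finset.abs_prod]
  congr 1
  exact Finset.prod_congr rfl fun m _ => abs_div _ _

theorem cc_nonneg (n k t j l : ℕ) : 0 ≤ cc n k t j l := by
  rw [← abs_EE]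
  exact abs_nonneg _

theorem neg_one_sq (a : ℕ) : (-1 : ℝ) ^ a * (-1 : ℝ) ^ a = 1 := by
  rw [← pow_add, ← two_mul, pow_mul]
  norm_num

theorem card_gt {t l : ℕ} (_hl : l ∈ Finset.Icc 1 t) :
    (((Finset.Icc 1 t).erase l).filter fun m => l < m).card = t - l := by
  have h : ((Finset.Icc 1 t).erase l).filter (fun m => l < m) = Finset.Ioc l t := by
    ext m
    simp only [Finset.mem_filter, Finset.mem_erase, Finset.mem_Icc, Finset.mem_Ioc]
    omega
  rw [h, Nat.card_Ioc]

theorem card_lt {t l : ℕ} (hl : l ∈ Finset.Icc 1 t) :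
    (((Finset.Icc 1 t).erase l).filter fun m => m < l).card = l - 1 := by
  have h : ((Finset.Icc 1 t).erase l).filter (fun m => m < l) = Finset.Ico 1 l := by
    rw [Finset.mem_Icc] at hl
    ext m
    simp only [Finset.mem_filter, Finset.mem_erase, Finset.mem_Icc, Finset.mem_Ico]
    omega
  rw [h, Nat.card_Ico]

theorem prod_sign (s : Finset ℕ) (p : ℕ → Prop) [DecidablePred p] :
    ∏ m ∈ s, (if p m then (-1 : ℝ) else 1) = (-1) ^ (s.filter p).card := by
  rw [Finset.prod_ite, Finset.prod_const, Finset.prod_const_one, mul_one]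

variable {n k t : ℕ}

theorem EE_pos (hn : 2 * k ≤ n) (htk : t < k) {j l : ℕ} (hj : t < j) (hjk : j ≤ k)
    (hl : l ∈ Finset.Icc 1 t) : EE n k t j l = (-1 : ℝ) ^ (j + t) * cc n k t j l := by
  have hl' := Finset.mem_Icc.1 hl
  have hP : ∏ m ∈ (Finset.Icc 1 t).erase l, ((y n j - y n m) / (y n l - y n m)) =
      (-1 : ℝ) ^ (t - l) * ∏ m ∈ (Finset.Icc 1 t).erase l,
        (|y n j - y n m| / |y n l - y n m|) := by
    rw [← card_gt hl, ← prod_sign, ← Finset.prod_mul_distrib]
    refine Finset.prod_congr rfl fun m hm => ?_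
    rw [Finset.mem_erase, Finset.mem_Icc] at hm
    have h1 : 0 < y n j - y n m := sub_pos.2 (y_lt hn (by omega) hjk)
    rw [abs_of_pos h1]
    by_cases h : l < m
    · have h2 : y n l - y n m < 0 := sub_neg.2 (y_lt hn h (by omega))
      rw [if_pos h, abs_of_neg h2, div_neg]
      ring
    · have h2 : 0 < y n l - y n m := sub_pos.2 (y_lt hn (by omega) (by omega))
      rw [if_neg h, abs_of_pos h2, one_mul]
  have hK : kap n k j / kap n k l = (-1 : ℝ) ^ (j + l) * |kap n k j / kap n k l| := by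
    have hj0 := kc_pos (j := j) hn hjk
    have hl0 := kc_pos (j := l) hn (by omega)
    have h1 : |kap n k j / kap n k l| = kc n k j / kc n k l := by
      rw [kap_eq, kap_eq, abs_div, abs_mul, abs_mul, abs_pow, abs_pow, abs_neg, abs_one, one_pow,
        one_pow, one_mul, one_mul, abs_of_pos hj0, abs_of_pos hl0]
    rw [h1, kap_eq, kap_eq]
    have h2 : (-1 : ℝ) ^ l ≠ 0 := pow_ne_zero _ (by norm_num)
    have h3 := neg_one_sq l
    have h4 : kc n k j / kc n k l * kc n k l = kc n k j := div_mul_cancel₀ _ hl0.ne'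
    rw [pow_add, div_eq_iff (mul_ne_zero h2 hl0.ne')]
    linear_combination (-((-1 : ℝ) ^ j * (kc n k j / kc n k l) * kc n k l)) * h3 -
      (-1 : ℝ) ^ j * h4
  have hs : (-1 : ℝ) ^ (j + l) * (-1 : ℝ) ^ (t - l) = (-1 : ℝ) ^ (j + t) := by
    rw [← pow_add]
    congr 1
    omega
  unfold EE cc
  rw [hP]
  obtain ⟨κ, hκ⟩ : ∃ κ : ℝ, κ = |kap n k j / kap n k l| := ⟨_, rfl⟩
  rw [← hκ] at hK ⊢
  rw [hK, ← hs]
  ring

theorem EE_zero (hn : 2 * k ≤ n) (htk : t < k) {l : ℕ} (hl : l ∈ Finset.Icc 1 t) :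
    EE n k t 0 l = -cc n k t 0 l := by
  have hl' := Finset.mem_Icc.1 hl
  have hP : ∏ m ∈ (Finset.Icc 1 t).erase l, ((y n 0 - y n m) / (y n l - y n m)) =
      (-1 : ℝ) ^ (l - 1) * ∏ m ∈ (Finset.Icc 1 t).erase l,
        (|y n 0 - y n m| / |y n l - y n m|) := by
    rw [← card_lt hl, ← prod_sign, ← Finset.prod_mul_distrib]
    refine Finset.prod_congr rfl fun m hm => ?_
    rw [Finset.mem_erase, Finset.mem_Icc] at hm
    have h1 : y n 0 - y n m < 0 := sub_neg.2 (y_lt hn (by omega) (by omega))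
    rw [abs_of_neg h1]
    by_cases h : m < l
    · have h2 : 0 < y n l - y n m := sub_pos.2 (y_lt hn h (by omega))
      rw [if_pos h, abs_of_pos h2, neg_div]
      ring
    · have h2 : y n l - y n m < 0 := sub_neg.2 (y_lt hn (by omega) (by omega))
      rw [if_neg h, abs_of_neg h2, one_mul, neg_div_neg_eq]
  have hK : kap n k 0 / kap n k l = (-1 : ℝ) ^ l * |kap n k 0 / kap n k l| := by
    have hj0 := kc_pos (j := 0) hn (Nat.zero_le _)
    have hl0 := kc_pos (j := l) hn (by omega)
    have h1 : |kap n k 0 / kap n k l| = kc n k 0 / kc n k l := by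
      rw [kap_eq, kap_eq, abs_div, abs_mul, abs_mul, abs_pow, abs_pow, abs_neg, abs_one, one_pow,
        one_pow, one_mul, one_mul, abs_of_pos hj0, abs_of_pos hl0]
    rw [h1, kap_eq, kap_eq]
    have h2 : (-1 : ℝ) ^ l ≠ 0 := pow_ne_zero _ (by norm_num)
    have h3 := neg_one_sq l
    have h4 : kc n k 0 / kc n k l * kc n k l = kc n k 0 := div_mul_cancel₀ _ hl0.ne'
    rw [pow_zero, one_mul, div_eq_iff (mul_ne_zero h2 hl0.ne')]
    linear_combination (-((kc n k 0 / kc n k l) * kc n k l)) * h3 - h4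
  have hs : (-1 : ℝ) ^ l * (-1 : ℝ) ^ (l - 1) = -1 := by
    obtain ⟨a, rfl⟩ : ∃ a, l = a + 1 := ⟨l - 1, by omega⟩
    rw [Nat.add_sub_cancel, pow_succ]
    have := neg_one_sq a
    linear_combination (-1 : ℝ) * this
  unfold EE cc
  rw [hP]
  obtain ⟨κ, hκ⟩ : ∃ κ : ℝ, κ = |kap n k 0 / kap n k l| := ⟨_, rfl⟩
  rw [← hκ] at hK ⊢
  rw [hK]
  linear_combination (κ * ∏ m ∈ (Finset.Icc 1 t).erase l,
    (|y n 0 - y n m| / |y n l - y n m|)) * hs

/-- ratio of the coefficients -/
theorem cc_ratio (hn : 2 * k ≤ n) (htk : t < k) {j l : ℕ} (hj : t < j) (hjk : j ≤ k)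
    (hl : l ∈ Finset.Icc 1 t) : cc n k t j l =
      (|kap n k j / kap n k 0| * ∏ m ∈ Finset.Icc 1 t, ((y n j - y n m) / y n m)) *
        (y n l / (y n j - y n l)) * cc n k t 0 l := by
  have hl' := Finset.mem_Icc.1 hl
  have hyl : 0 < y n l := by
    have := y_lt hn (i := 0) (j := l) (by omega) (by omega)
    rwa [y_zero] at this
  have hyj : 0 < y n j - y n l := sub_pos.2 (y_lt hn (by omega) hjk)
  have h1 : ∏ m ∈ Finset.Icc 1 t, ((y n j - y n m) / y n m) =
      ((y n j - y n l) / y n l) * ∏ m ∈ (Finset.Icc 1 t).erase l, ((y n j - y n m) / y n m) :=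
    (Finset.mul_prod_erase _ _ hl).symm
  have h2 : ∏ m ∈ (Finset.Icc 1 t).erase l, (|y n j - y n m| / |y n l - y n m|) =
      (∏ m ∈ (Finset.Icc 1 t).erase l, ((y n j - y n m) / y n m)) *
        ∏ m ∈ (Finset.Icc 1 t).erase l, (|y n 0 - y n m| / |y n l - y n m|) := by
    rw [← Finset.prod_mul_distrib]
    refine Finset.prod_congr rfl fun m hm => ?_
    rw [Finset.mem_erase, Finset.mem_Icc] at hm
    have h3 : 0 < y n j - y n m := sub_pos.2 (y_lt hn (by omega) hjk)
    have h4 : 0 < y n m := by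
      have := y_lt hn (i := 0) (j := m) (by omega) (by omega)
      rwa [y_zero] at this
    have h5 : |y n l - y n m| ≠ 0 := by
      rw [abs_ne_zero, sub_ne_zero]
      rcases Nat.lt_or_gt_of_ne hm.1 with h | h
      · exact (y_lt hn h (by omega)).ne'
      · exact (y_lt hn h (by omega)).ne
    rw [abs_of_pos h3, y_zero, zero_sub, abs_neg, abs_of_pos h4]
    field_simp
  have h0 : kap n k 0 ≠ 0 := kap_ne hn (Nat.zero_le _)
  have hl0 : kap n k l ≠ 0 := kap_ne hn (by omega)
  have h3 : |kap n k j / kap n k l| = |kap n k j / kap n k 0| * |kap n k 0 / kap n k l| := by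
    rw [← abs_mul]
    congr 1
    field_simp
  unfold cc
  rw [h1, h2, h3]
  field_simp

theorem eval_Q (hn : 2 * k ≤ n) (htk : t < k) (lam : ℕ → ℝ) (α : ℝ) (j : ℕ) :
    kap n k j * (Lagrange.interpolate (Finset.Icc 1 t) (y n)
      (fun l => (lam l - α) / kap n k l)).eval (y n j) =
      ∑ l ∈ Finset.Icc 1 t, (lam l - α) * EE n k t j l := by
  rw [Lagrange.interpolate_apply, Polynomial.eval_finsetSum, Finset.mul_sum]
  refine Finset.sum_congr rfl fun l hl => ?_
  rw [Polynomial.eval_mul, Polynomial.eval_C, Lagrange.basis, Polynomial.eval_prod]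
  have h1 : ∏ m ∈ (Finset.Icc 1 t).erase l, Polynomial.eval (y n j)
      (Lagrange.basisDivisor (y n l) (y n m)) =
      ∏ m ∈ (Finset.Icc 1 t).erase l, ((y n j - y n m) / (y n l - y n m)) := by
    refine Finset.prod_congr rfl fun m _ => ?_
    unfold Lagrange.basisDivisor
    rw [Polynomial.eval_mul, Polynomial.eval_C, Polynomial.eval_sub, Polynomial.eval_X,
      Polynomial.eval_C]
    ring
  rw [h1]
  unfold EE
  ring

theorem inj_y (hn : 2 * k ≤ n) (htk : t < k) : Set.InjOn (y n) (Finset.Icc 1 t : Finset ℕ) := by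
  intro a ha b hb hab
  rw [Finset.mem_coe, Finset.mem_Icc] at ha hb
  rcases Nat.lt_trichotomy a b with h | h | h
  · exact absurd hab (y_lt hn h (by omega)).ne
  · exact h
  · exact absurd hab (y_lt hn h (by omega)).ne'

theorem pos (hTHE : THEStmt) : POSStmt := by
  intro n k t ht htk hnn lam hlam
  have hn := two_k_le ht htk hnn
  obtain ⟨s, hs⟩ : ∃ s : ℝ, s = ∑ l ∈ Finset.Icc 1 t, cc n k t 0 l := ⟨_, rfl⟩
  have hs0 : 0 ≤ s := by
    rw [hs]
    exact Finset.sum_nonneg fun l _ => cc_nonneg _ _ _ _ _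
  obtain ⟨α, hα⟩ : ∃ α : ℝ, α = (lam 0 + ∑ l ∈ Finset.Icc 1 t, cc n k t 0 l * lam l) / (1 + s) :=
    ⟨_, rfl⟩
  have hα' : α * (1 + s) = lam 0 + ∑ l ∈ Finset.Icc 1 t, cc n k t 0 l * lam l := by
    rw [hα]
    exact div_mul_cancel₀ _ (by linarith)
  -- `lam t ≤ α ≤ lam 0`
  have hlow : lam t ≤ α := by
    have h1 : lam t * (1 + s) ≤ α * (1 + s) := by
      rw [hα', mul_add, mul_one, hs, Finset.mul_sum]
      refine add_le_add (hlam 0 t (Nat.zero_le _) htk.le) (Finset.sum_le_sum fun l hl => ?_)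
      rw [mul_comm]
      rw [Finset.mem_Icc] at hl
      exact mul_le_mul_of_nonneg_left (hlam l t hl.2 htk.le) (cc_nonneg _ _ _ _ _)
    exact le_of_mul_le_mul_right h1 (by linarith)
  have hupp : α ≤ lam 0 := by
    have h1 : α * (1 + s) ≤ lam 0 * (1 + s) := by
      rw [hα', mul_add, mul_one, hs, Finset.mul_sum]
      refine add_le_add le_rfl (Finset.sum_le_sum fun l hl => ?_)
      rw [mul_comm (lam 0)]
      rw [Finset.mem_Icc] at hl
      exact mul_le_mul_of_nonneg_left (hlam 0 l (Nat.zero_le _) (by omega))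
        (cc_nonneg _ _ _ _ _)
    exact le_of_mul_le_mul_right h1 (by linarith)
  have hbal : ∑ l ∈ Finset.Icc 1 t, (α - lam l) * cc n k t 0 l = lam 0 - α := by
    have h1 : ∑ l ∈ Finset.Icc 1 t, (α - lam l) * cc n k t 0 l =
        α * s - ∑ l ∈ Finset.Icc 1 t, cc n k t 0 l * lam l := by
      rw [hs, Finset.mul_sum, ← Finset.sum_sub_distrib]
      refine Finset.sum_congr rfl fun l _ => ?_
      ring
    rw [h1]
    linarith
  refine ⟨α, Lagrange.interpolate (Finset.Icc 1 t) (y n) (fun l => (lam l - α) / kap n k l),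
    ?_, ?_, ?_⟩
  · have h1 := Lagrange.degree_interpolate_lt (s := Finset.Icc 1 t) (v := y n)
      (fun l => (lam l - α) / kap n k l) (inj_y hn htk)
    rw [Nat.card_Icc, Nat.add_sub_cancel] at h1
    rcases eq_or_ne (Lagrange.interpolate (Finset.Icc 1 t) (y n)
      (fun l => (lam l - α) / kap n k l)) 0 with h0 | h0
    · rw [h0, Polynomial.natDegree_zero]
      omega
    · exact (Polynomial.natDegree_lt_iff_degree_lt h0).2 h1
  · intro j hj
    rcases Nat.eq_zero_or_pos j with h0 | h0
    · subst h0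
      rw [eval_Q hn htk]
      have h1 : ∑ l ∈ Finset.Icc 1 t, (lam l - α) * EE n k t 0 l =
          ∑ l ∈ Finset.Icc 1 t, (α - lam l) * cc n k t 0 l := by
        refine Finset.sum_congr rfl fun l hl => ?_
        rw [EE_zero hn htk hl]
        ring
      rw [h1, hbal]
      ring
    · have hjm : j ∈ Finset.Icc 1 t := Finset.mem_Icc.2 ⟨h0, hj⟩
      rw [Lagrange.eval_interpolate_at_node _ (inj_y hn htk) hjm]
      have h1 := kap_ne (j := j) hn (by omega)
      rw [mul_div_cancel₀ _ h1]
      ring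
  · intro j hj hjk
    rw [eval_Q hn htk]
    have hjt : lam j ≤ lam t := hlam t j hj.le hjk
    rcases Nat.even_or_odd (j + t) with hev | hodd
    · -- even case
      have h1 : ∑ l ∈ Finset.Icc 1 t, (lam l - α) * EE n k t j l =
          -∑ l ∈ Finset.Icc 1 t, (α - lam l) * cc n k t j l := by
        rw [← Finset.sum_neg_distrib]
        refine Finset.sum_congr rfl fun l hl => ?_
        rw [EE_pos hn htk hj hjk hl, hev.neg_one_pow]
        ring
      rw [h1]
      have hj2 : t + 2 ≤ j := by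
        by_contra hcon
        have h2 : j = t + 1 := by omega
        rw [h2] at hev
        obtain ⟨r, hr⟩ := hev
        omega
      have h2 := hTHE n k t j ht hj2 hjk hnn
      have h3 : ∑ l ∈ Finset.Icc 1 t, (α - lam l) * cc n k t j l ≤
          (α - lam t) * ∑ l ∈ Finset.Icc 1 t, cc n k t j l := by
        rw [Finset.mul_sum]
        refine Finset.sum_le_sum fun l hl => ?_
        rw [Finset.mem_Icc] at hl
        have h4 := hlam l t hl.2 htk.le
        exact mul_le_mul_of_nonneg_right (by linarith) (cc_nonneg _ _ _ _ _)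
      have h4 : (α - lam t) * ∑ l ∈ Finset.Icc 1 t, cc n k t j l ≤ (α - lam t) * 1 :=
        mul_le_mul_of_nonneg_left h2 (by linarith)
      linarith
    · -- odd case
      have h1 : ∑ l ∈ Finset.Icc 1 t, (lam l - α) * EE n k t j l =
          ∑ l ∈ Finset.Icc 1 t, (α - lam l) * cc n k t j l := by
        refine Finset.sum_congr rfl fun l hl => ?_
        rw [EE_pos hn htk hj hjk hl, hodd.neg_one_pow]
        ring
      rw [h1]
      obtain ⟨W, hW⟩ : ∃ W : ℝ, W =
        |kap n k j / kap n k 0| * ∏ m ∈ Finset.Icc 1 t, ((y n j - y n m) / y n m) := ⟨_, rfl⟩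
      have hypos : ∀ m, 1 ≤ m → m ≤ t → 0 < y n m := by
        intro m h2 h3
        have := y_lt hn (i := 0) (j := m) (by omega) (by omega)
        rwa [y_zero] at this
      have hyj : ∀ m, m ≤ t → 0 < y n j - y n m := fun m h3 =>
        sub_pos.2 (y_lt hn (by omega) hjk)
      have hW0 : 0 ≤ W := by
        rw [hW]
        refine mul_nonneg (abs_nonneg _) (Finset.prod_nonneg fun m hm => ?_)
        rw [Finset.mem_Icc] at hm
        exact div_nonneg (hyj m hm.2).le (hypos m hm.1 hm.2).le
      -- the ratio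
      have hr : ∀ l ∈ Finset.Icc 1 t, cc n k t j l =
          (W * (y n l / (y n j - y n l))) * cc n k t 0 l := by
        intro l hl
        rw [hW]
        exact cc_ratio hn htk hj hjk hl
      have hmono : ∀ l l' : ℕ, 1 ≤ l → l ≤ l' → l' ≤ t →
          W * (y n l / (y n j - y n l)) ≤ W * (y n l' / (y n j - y n l')) := by
        intro l l' h2 h3 h4
        refine mul_le_mul_of_nonneg_left ?_ hW0
        rw [div_le_div_iff₀ (hyj l (by omega)) (hyj l' h4)]
        have h5 : y n l ≤ y n l' := by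
          rcases Nat.lt_or_ge l l' with h | h
          · exact (y_lt hn h (by omega)).le
          · have : l = l' := by omega
            rw [this]
        have h6 : 0 ≤ y n j := by
          have := y_lt hn (i := 0) (j := j) (by omega) hjk
          rw [y_zero] at this
          exact this.le
        nlinarith
      have hsum : 0 ≤ ∑ l ∈ Finset.Icc 1 t, (α - lam l) * cc n k t j l := by
        by_cases hall : ∀ l ∈ Finset.Icc 1 t, 0 ≤ α - lam l
        · exact Finset.sum_nonneg fun l hl => mul_nonneg (hall l hl) (cc_nonneg _ _ _ _ _)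
        · push Not at hall
          -- the last index with a negative value
          obtain ⟨l1, hl1, hl1'⟩ := hall
          have hne : ((Finset.Icc 1 t).filter fun l => α - lam l < 0).Nonempty :=
            ⟨l1, Finset.mem_filter.2 ⟨hl1, hl1'⟩⟩
          obtain ⟨l0, hl0⟩ : ∃ l0, l0 = ((Finset.Icc 1 t).filter fun l => α - lam l < 0).max' hne :=
            ⟨_, rfl⟩
          have hl0m : l0 ∈ (Finset.Icc 1 t).filter fun l => α - lam l < 0 := by
            rw [hl0]
            exact Finset.max'_mem _ _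
          have hl0a := Finset.mem_filter.1 hl0m
          have hl0b := Finset.mem_Icc.1 hl0a.1
          obtain ⟨c, hc⟩ : ∃ c : ℝ, c = W * (y n l0 / (y n j - y n l0)) := ⟨_, rfl⟩
          have hc0 : 0 ≤ c := by
            rw [hc]
            exact mul_nonneg hW0 (div_nonneg (hypos l0 hl0b.1 hl0b.2).le (hyj l0 hl0b.2).le)
          have hterm : ∀ l ∈ Finset.Icc 1 t, c * ((α - lam l) * cc n k t 0 l) ≤
              (α - lam l) * cc n k t j l := by
            intro l hl
            have hlb := Finset.mem_Icc.1 hl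
            rw [hr l hl]
            have hcc := cc_nonneg n k t 0 l
            rcases Nat.le_total l l0 with h | h
            · have h2 := hmono l l0 hlb.1 h hl0b.2
              rw [← hc] at h2
              have h3 := hlam l l0 h (by omega)
              have h4 : α - lam l ≤ 0 := by linarith [hl0a.2]
              nlinarith [mul_nonneg (mul_nonneg (sub_nonneg.2 h2) (neg_nonneg.2 h4)) hcc]
            · have h2 := hmono l0 l hl0b.1 h hlb.2
              rw [← hc] at h2
              rcases Nat.lt_or_ge l0 l with h' | h'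
              · have h4 : 0 ≤ α - lam l := by
                  by_contra hcon
                  push Not at hcon
                  have h5 : l ∈ (Finset.Icc 1 t).filter fun l => α - lam l < 0 :=
                    Finset.mem_filter.2 ⟨hl, hcon⟩
                  have h6 := Finset.le_max' _ _ h5
                  rw [← hl0] at h6
                  omega
                nlinarith [mul_nonneg (mul_nonneg (sub_nonneg.2 h2) h4) hcc]
              · have h7 : l = l0 := by omega
                rw [h7, ← hc]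
                exact le_of_eq (by ring)
          calc (0 : ℝ) ≤ c * (lam 0 - α) := mul_nonneg hc0 (by linarith)
            _ = ∑ l ∈ Finset.Icc 1 t, c * ((α - lam l) * cc n k t 0 l) := by
                rw [← Finset.mul_sum, hbal]
            _ ≤ _ := Finset.sum_le_sum hterm
      linarith

end Pool.Agent.DPS.H33
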